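import Mathlib

/-!
# LT2: the choice of the parameters
-/

set_option autoImplicit false

namespace Pool.Agent.Helper3.LU

open Filter

private lemma ev_pow {s t c : ℝ} (hst : s < t) (hc : 0 < c) :
    ∀ᶠ n : ℕ in atTop, 2 * (n : ℝ) ^ s ≤ c * (n : ℝ) ^ t := by
  have h1 : Tendsto (fun n : ℕ => (n : ℝ) ^ (t - s)) atTop atTop :=
    (tendsto_rpow_atTop (sub_pos.2 hst)).comp tendsto_natCast_atTop_atTop
  filter_upwards [h1.eventually_ge_atTop (2 / c), eventually_gt_atTop 0] with n hn hn0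
  have hn' : (0 : ℝ) < n := Nat.cast_pos.2 hn0
  have h2 : (n : ℝ) ^ t = (n : ℝ) ^ (t - s) * (n : ℝ) ^ s := by
    rw [← Real.rpow_add hn', sub_add_cancel]
  rw [h2, ← mul_assoc]
  refine mul_le_mul_of_nonneg_right ?_ (Real.rpow_nonneg hn'.le _)
  rw [div_le_iff₀ hc] at hn
  linarith

private lemma ev_log {s K : ℝ} (hs : 1 < s) (hK : 0 ≤ K) (g : ℕ) :
    ∀ᶠ n : ℕ in atTop, K * n * Real.log (2 * g * n + 2) ≤ (n : ℝ) ^ s := by
  set ε : ℝ := (s - 1) / 2 with hε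
  have hε0 : 0 < ε := by rw [hε]; linarith
  have h1 : Tendsto (fun n : ℕ => (n : ℝ) ^ ε) atTop atTop :=
    (tendsto_rpow_atTop hε0).comp tendsto_natCast_atTop_atTop
  filter_upwards [h1.eventually_ge_atTop (K * (2 * g + 1) ^ ε / ε), eventually_ge_atTop 2]
    with n hn hn2
  have hn2' : (2 : ℝ) ≤ n := by exact_mod_cast hn2
  have hn' : (0 : ℝ) < n := by linarith
  have hg : (0 : ℝ) ≤ g := Nat.cast_nonneg g
  have h2 : Real.log (2 * g * n + 2) ≤ (2 * g * n + 2) ^ ε / ε := by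
    refine Real.log_le_rpow_div ?_ hε0
    positivity
  have h3 : ((2 * g * n + 2 : ℝ)) ^ ε ≤ (2 * g + 1) ^ ε * (n : ℝ) ^ ε := by
    rw [← Real.mul_rpow (by positivity) hn'.le]
    refine Real.rpow_le_rpow (by positivity) ?_ hε0.le
    linarith
  have h4 : (n : ℝ) ^ s = n * ((n : ℝ) ^ ε * (n : ℝ) ^ ε) := by
    rw [← Real.rpow_add hn']
    nth_rewrite 2 [← Real.rpow_one (n : ℝ)]
    rw [← Real.rpow_add hn', hε]
    congr 1
    ring
  rw [h4]
  have h5 : K * Real.log (2 * g * n + 2) ≤ (n : ℝ) ^ ε * (n : ℝ) ^ ε := by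
    calc K * Real.log (2 * g * n + 2) ≤ K * ((2 * g + 1) ^ ε * (n : ℝ) ^ ε / ε) := by
          refine mul_le_mul_of_nonneg_left (h2.trans ?_) hK
          exact div_le_div_of_nonneg_right h3 hε0.le
      _ = (K * (2 * g + 1) ^ ε / ε) * (n : ℝ) ^ ε := by ring
      _ ≤ (n : ℝ) ^ ε * (n : ℝ) ^ ε :=
          mul_le_mul_of_nonneg_right hn (Real.rpow_nonneg hn'.le _)
  calc K * n * Real.log (2 * g * n + 2) = n * (K * Real.log (2 * g * n + 2)) := by ring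
    _ ≤ n * ((n : ℝ) ^ ε * (n : ℝ) ^ ε) := mul_le_mul_of_nonneg_left h5 hn'.le

theorem params (q g r n : ℕ) (hq : 1 ≤ q) (hr : r ≤ g) (h : n * r < g) :
    ∃ κ : ℝ, (n : ℝ) + 1 < κ ∧ ∀ CB CP S0 : ℝ, 1 ≤ CB → 1 ≤ CP → ∀ CZ : ℕ,
      ∃ (L T0 : ℕ) (U S : ℝ), 1 ≤ L ∧ CZ * L < T0 ∧ L ≤ 2 * q * T0 ∧
        ((2 * q * T0 : ℕ) : ℝ) * Real.log (((2 * q * T0 : ℕ) : ℝ) + 2) ≤ U ∧
        1 ≤ ((2 * q * T0 : ℕ) : ℝ) * Real.log (((2 * q * T0 : ℕ) : ℝ) + 2) ∧
        CB * (L * Real.log (L + 2)) ≤ U ∧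
        CB * (L : ℝ) ^ ((n + 1) * (g - r)) * U ^ ((n + 1) * r + 1) ≤
          (L : ℝ) ^ ((n + 1) * (2 * g)) *
            (((2 * q * T0 : ℕ) : ℝ) * Real.log (((2 * q * T0 : ℕ) : ℝ) + 2)) ∧
        S0 ≤ S ∧
        CP * ((2 * q * T0 : ℕ) : ℝ) * Real.log (((2 * q * T0 : ℕ) : ℝ) + 2) ≤ S ∧
        CP * ((2 * q * T0 : ℕ) : ℝ) ≤ S ∧
        CP * ((2 * q * T0 : ℕ) : ℝ) * Real.log (((2 * q * T0 : ℕ) : ℝ) + 2) - U ≤ -S ^ κ := by
  have hgr : (n : ℝ) * r + 1 ≤ g := by exact_mod_cast h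
  have hr0 : (0 : ℝ) ≤ r := Nat.cast_nonneg r
  have hn0 : (0 : ℝ) ≤ n := Nat.cast_nonneg n
  set m : ℕ := (n + 1) * r + 1 with hm
  have hm' : (m : ℝ) = (n + 1) * r + 1 := by rw [hm]; push_cast; ring
  have hm0 : (0 : ℝ) < m := by rw [hm']; positivity
  set E : ℝ := (((n : ℝ) + 1) * (g + r) + 1) / m with hE
  have hEn : (n : ℝ) + 1 < E := by
    rw [hE, lt_div_iff₀ hm0, hm']
    have h1 : ((n : ℝ) + 1) * (n * r + 1) ≤ (n + 1) * g :=
      mul_le_mul_of_nonneg_left hgr (by linarith)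
    nlinarith
  refine ⟨(n + 1 + E) / 2, by linarith, ?_⟩
  intro CB CP S0 hCB hCP CZ
  set κ : ℝ := (n + 1 + E) / 2 with hκ
  have hκ1 : 1 ≤ κ := by rw [hκ]; linarith
  have hκE : κ < E := by rw [hκ]; linarith
  have hκ0 : 0 < κ := by linarith
  set s : ℝ := (1 + E / κ) / 2 with hs
  have hs1 : 1 < s := by
    have h1 : 1 < E / κ := (one_lt_div hκ0).2 hκE
    rw [hs]
    linarith
  have hsκ : s * κ < E := by
    have h1 : s * κ = (κ + E) / 2 := by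
      rw [hs]
      field_simp
    rw [h1]
    linarith
  -- the constants
  set c : ℝ := 1 / (2 * CB) with hc
  have hCB0 : 0 < CB := by linarith
  have hCP0 : 0 < CP := by linarith
  have hc0 : 0 < c := by rw [hc]; positivity
  set c' : ℝ := c ^ ((m : ℝ)⁻¹) with hc'
  have hc'0 : 0 < c' := Real.rpow_pos_of_pos hc0 _
  obtain ⟨G, hG⟩ : ∃ G : ℕ, G = q * (CZ + 2) := ⟨_, rfl⟩
  have hK : 0 ≤ (2 * CP + CB) * (2 * (G : ℝ)) := by positivity
  have e2 : Tendsto (fun L : ℕ => (L : ℝ) ^ s) atTop atTop :=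
    (tendsto_rpow_atTop (by linarith)).comp tendsto_natCast_atTop_atTop
  obtain ⟨L, h2, h3, h4, h5⟩ := ((e2.eventually_ge_atTop S0).and ((ev_log hs1 hK G).and
    ((ev_pow hsκ hc'0).and (eventually_ge_atTop 1)))).exists
  have hL1 : (1 : ℝ) ≤ L := by exact_mod_cast h5
  have hL0 : (0 : ℝ) < L := by linarith
  obtain ⟨T0, hT0⟩ : ∃ T0 : ℕ, T0 = (CZ + 1) * L + 1 := ⟨_, rfl⟩
  have hCZL : CZ * L < T0 := by
    rw [hT0]
    nlinarith
  have hLT0 : L ≤ 2 * q * T0 := by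
    have h6 : L ≤ T0 := by
      rw [hT0]
      nlinarith
    have h7 : 1 * T0 ≤ 2 * q * T0 := Nat.mul_le_mul_right _ (by omega)
    omega
  set T : ℝ := ((2 * q * T0 : ℕ) : ℝ) with hT
  have hLT : (L : ℝ) ≤ T := by rw [hT]; exact Nat.cast_le.2 hLT0
  have hTpos : 0 < T := by linarith
  have hTG : T ≤ 2 * G * L := by
    have h6 : 2 * q * T0 ≤ 2 * G * L := by
      have h7 : T0 ≤ (CZ + 2) * L := by
        rw [hT0]
        nlinarith
      calc 2 * q * T0 ≤ 2 * q * ((CZ + 2) * L) := Nat.mul_le_mul_left _ h7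
        _ = 2 * G * L := by rw [hG]; ring
    rw [hT]
    have h8 : ((2 * q * T0 : ℕ) : ℝ) ≤ ((2 * G * L : ℕ) : ℝ) := Nat.cast_le.2 h6
    refine h8.trans (le_of_eq ?_)
    push_cast
    ring
  have hT4 : (4 : ℝ) ≤ T := by
    have h6 : 4 ≤ 2 * q * T0 := by
      have h7 : 2 ≤ T0 := by
        rw [hT0]
        nlinarith
      calc 4 = 2 * 1 * 2 := rfl
        _ ≤ 2 * q * T0 := Nat.mul_le_mul (Nat.mul_le_mul_left _ hq) h7
    have h8 : ((4 : ℕ) : ℝ) ≤ ((2 * q * T0 : ℕ) : ℝ) := Nat.cast_le.2 h6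
    rw [hT]
    refine le_trans (le_of_eq ?_) h8
    norm_num
  have hlog : 1 / 2 ≤ Real.log (T + 2) := by
    have h6 : Real.log 2 ≤ Real.log (T + 2) := Real.log_le_log (by norm_num) (by linarith)
    have := Real.log_two_gt_d9
    linarith
  have hlog0 : 0 ≤ Real.log (T + 2) := by linarith
  have hlogG : Real.log (T + 2) ≤ Real.log (2 * G * L + 2) :=
    Real.log_le_log (by linarith) (by linarith)
  have hTlog : T * Real.log (T + 2) ≤ 2 * G * L * Real.log (2 * G * L + 2) :=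
    mul_le_mul hTG hlogG hlog0 (by positivity)
  have hTl0 : 0 ≤ T * Real.log (T + 2) := by positivity
  set Z : ℝ := 2 * G * L * Real.log (2 * G * L + 2) with hZ
  have hZ0 : 0 ≤ Z := hTl0.trans hTlog
  have h3' : (2 * CP + CB) * Z ≤ (L : ℝ) ^ s := by
    refine le_trans (le_of_eq ?_) h3
    rw [hZ]
    ring
  have hb0 : 2 * CP * Z ≤ (L : ℝ) ^ s := by
    refine le_trans ?_ h3'
    have : 0 ≤ CB * Z := by positivity
    linarith
  have hb1 : CP * T * Real.log (T + 2) ≤ (L : ℝ) ^ s := by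
    refine le_trans ?_ hb0
    have h6 : CP * (T * Real.log (T + 2)) ≤ CP * Z := mul_le_mul_of_nonneg_left hTlog hCP0.le
    have h7 : 0 ≤ CP * Z := by positivity
    linarith
  have hb2 : CP * T ≤ (L : ℝ) ^ s := by
    refine le_trans ?_ hb0
    have h6 : T * (1 / 2) ≤ T * Real.log (T + 2) := mul_le_mul_of_nonneg_left hlog hTpos.le
    have h7 : CP * T ≤ 2 * CP * (T * Real.log (T + 2)) := by nlinarith
    have h8 : 2 * CP * (T * Real.log (T + 2)) ≤ 2 * CP * Z :=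
      mul_le_mul_of_nonneg_left hTlog (by linarith)
    exact h7.trans h8
  have hb3 : T * Real.log (T + 2) ≤ (L : ℝ) ^ s := by
    refine le_trans ?_ hb1
    rw [mul_assoc]
    exact le_mul_of_one_le_left hTl0 hCP
  have hb4 : CB * (L * Real.log (L + 2)) ≤ (L : ℝ) ^ s := by
    have h6 : (L : ℝ) * Real.log (L + 2) ≤ T * Real.log (T + 2) :=
      mul_le_mul hLT (Real.log_le_log (by linarith) (by linarith))
        (Real.log_nonneg (by linarith)) hTpos.le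
    have h7 : CB * (L * Real.log (L + 2)) ≤ CB * Z :=
      mul_le_mul_of_nonneg_left (h6.trans hTlog) hCB0.le
    have h8 : 0 ≤ 2 * CP * Z := by positivity
    linarith
  set y : ℝ := (L : ℝ) ^ ((n + 1) * (g + r)) * (T * Real.log (T + 2)) / CB with hy
  have hy0 : 0 ≤ y := by rw [hy]; positivity
  set U : ℝ := y ^ ((m : ℝ)⁻¹) with hU
  have hUpow : U ^ m = y := Real.rpow_inv_natCast_pow hy0 (by omega)
  have hlow : c' * (L : ℝ) ^ E ≤ U := by
    have h6 : c * (L : ℝ) ^ (((n : ℝ) + 1) * (g + r) + 1) ≤ y := by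
      have h7 : (L : ℝ) ^ (((n : ℝ) + 1) * (g + r) + 1) = (L : ℝ) ^ ((n + 1) * (g + r)) * L := by
        rw [Real.rpow_add hL0, Real.rpow_one, ← Real.rpow_natCast]
        push_cast
        rfl
      rw [h7, hc, hy]
      have h8 : (L : ℝ) * (1 / 2) ≤ T * Real.log (T + 2) :=
        mul_le_mul hLT hlog (by norm_num) hTpos.le
      have h9 : 1 / (2 * CB) * ((L : ℝ) ^ ((n + 1) * (g + r)) * L) =
          (L : ℝ) ^ ((n + 1) * (g + r)) * ((L : ℝ) * (1 / 2)) / CB := by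
        field_simp
      rw [h9]
      refine div_le_div_of_nonneg_right ?_ hCB0.le
      exact mul_le_mul_of_nonneg_left h8 (by positivity)
    have h9 : (c * (L : ℝ) ^ (((n : ℝ) + 1) * (g + r) + 1)) ^ ((m : ℝ)⁻¹) ≤ U :=
      Real.rpow_le_rpow (by positivity) h6 (by positivity)
    rw [Real.mul_rpow hc0.le (Real.rpow_nonneg hL0.le _), ← hc', ← Real.rpow_mul hL0.le] at h9
    have h10 : (((n : ℝ) + 1) * (g + r) + 1) * (m : ℝ)⁻¹ = E := by
      rw [hE, div_eq_mul_inv]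
    rwa [h10] at h9
  have hS1 : (L : ℝ) ^ s ≤ (L : ℝ) ^ (s * κ) := by
    refine Real.rpow_le_rpow_of_exponent_le hL1 ?_
    exact le_mul_of_one_le_right (by linarith) hκ1
  have hSU : 2 * (L : ℝ) ^ (s * κ) ≤ U := h4.trans hlow
  have hSn : 0 ≤ (L : ℝ) ^ s := Real.rpow_nonneg hL0.le _
  refine ⟨L, T0, U, (L : ℝ) ^ s, h5, hCZL, hLT0, ?_, ?_, ?_, ?_, h2, hb1, hb2, ?_⟩
  · linarith
  · have h6 : (4 : ℝ) * (1 / 2) ≤ T * Real.log (T + 2) :=
      mul_le_mul hT4 hlog (by norm_num) hTpos.le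
    linarith
  · linarith
  · rw [hUpow, hy]
    have h6 : (n + 1) * (2 * g) = (n + 1) * (g - r) + (n + 1) * (g + r) := by
      rw [← Nat.mul_add]
      congr 1
      omega
    rw [h6, pow_add]
    have h7 : CB * (L : ℝ) ^ ((n + 1) * (g - r)) *
        ((L : ℝ) ^ ((n + 1) * (g + r)) * (T * Real.log (T + 2)) / CB) =
        (L : ℝ) ^ ((n + 1) * (g - r)) * (L : ℝ) ^ ((n + 1) * (g + r)) *
          (T * Real.log (T + 2)) := by
      field_simp
    rw [h7]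
  · rw [← Real.rpow_mul hL0.le]
    linarith

end Pool.Agent.Helper3.LU
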